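import Pool.Agent.Work.MP_db9399_nc.Base

/-!
# MP_db9399, THEOREM NC: block SP0 (helper51)
-/

set_option autoImplicit false

namespace Pool.Agent.Work.MP_db9399_nc.helper51

open Finset Classical
open Pool.Agent.Work.MP_db9399_all (nb)
open Pool.Agent.Work.MP_db9399_nc

universe u

theorem stmt_SP0 (hCL : Stmt_CLEAN.{u}) : Stmt_SP0.{u} := by
  intro V _ G d c F E hm γ hS hcard
  have hsym : ∀ v w, hm v = w → hm w = v := by
    intro v w h
    rw [← h]
    exact hS.hinv v
  let R : SimpleGraph V :=
    { Adj := fun v w => G.Adj v w ∧ hm v ≠ w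
      symm := ⟨fun v w h => ⟨h.1.symm, fun h2 => h.2 (hsym _ _ h2)⟩⟩
      loopless := ⟨fun v h => G.loopless.irrefl v h.1⟩ }
  have hR : ∀ v w, R.Adj v w ↔ G.Adj v w ∧ hm v ≠ w := fun v w => Iff.rfl
  have hEr : E ⊆ range (d + 2) := fun b hb => Finset.mem_range.mpr (hS.Elt b hb)
  have hClc : (range (d + 2) \ E).card = d + 2 - E.card := by
    rw [Finset.card_sdiff_of_subset hEr, Finset.card_range]
  obtain ⟨t0, hP, hc⟩ := hCL R (range (d + 2) \ E) c ∅
    (by
      intro v w hvw hcv hmem
      rw [Finset.mem_sdiff] at hmem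
      exact hmem.2 (hS.crep v w hvw hcv))
    (by
      intro v _
      have h1 : (nb R v).card + 1 ≤ Fintype.card V := by
        have : nb R v ⊆ univ.erase v := by
          intro w hw
          rw [mem_nb] at hw
          exact Finset.mem_erase.mpr ⟨fun h => R.loopless.irrefl v (h ▸ hw), Finset.mem_univ _⟩
        have h2 := Finset.card_le_card this
        rw [Finset.card_erase_of_mem (Finset.mem_univ v), Finset.card_univ] at h2
        have h3 : 0 < Fintype.card V := Fintype.card_pos_iff.mpr ⟨v⟩
        omega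
      rw [hClc]
      split_ifs <;> omega)
    (by intro v hv; simp at hv)
    (by intro v hv; simp at hv)
    (by
      obtain ⟨a, ha, haE, hac⟩ := hS.fr
      exact ⟨a, Finset.mem_sdiff.mpr ⟨Finset.mem_range.mpr ha, haE⟩, hac⟩)
  have hcl : ∀ v w, G.Adj v w → hm v ≠ w → t0 v w < d + 2 ∧ t0 v w ∉ E := by
    intro v w h1 h2
    have h := hP.mem v w ⟨h1, h2⟩
    rw [Finset.mem_sdiff, Finset.mem_range] at h
    exact h
  have hne : ∀ v w, G.Adj v w → hm v = w → hm v ≠ v := by
    intro v w h1 h2 h3
    rw [h2] at h3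
    rw [h3] at h1
    exact G.loopless.irrefl v h1
  refine ⟨fun v w => if hm v = w then γ else t0 v w, ?_, ?_, ?_, ?_, ?_, ?_⟩
  · intro v w
    by_cases h : hm v = w
    · simp [h, hsym v w h]
    · have h2 : ¬ hm w = v := fun h2 => h (hsym _ _ h2)
      simp [h, h2, hP.sym v w]
  · intro v w hvw
    by_cases h : hm v = w
    · simp only [h, if_true]
      exact hS.Elt _ (hS.hadj v (hne v w hvw h)).2.1
    · simp only [h, if_false]
      exact (hcl v w hvw h).1
  · intro v w hvw
    by_cases h : hm v = w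
    · simp only [h, if_true]
      exact (hS.hadj v (hne v w hvw h)).2.2.1
    · simp only [h, if_false]
      exact hc v w ⟨hvw, h⟩
  · intro v w hvw
    by_cases h : hm v = w
    · simp only [h, if_true]
      exact (hS.hadj v (hne v w hvw h)).2.2.2
    · simp only [h, if_false]
      exact fun h2 => (hcl v w hvw h).2 (hS.FE v h2)
  · intro v w hw w' hw' he
    rw [Finset.mem_coe, mem_nb] at hw hw'
    simp only at he
    by_cases h : hm v = w
    · by_cases h' : hm v = w'
      · rw [← h, ← h']
      · rw [if_pos h, if_neg h'] at he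
        exact absurd (he ▸ (hS.hadj v (hne v w hw h)).2.1) (hcl v w' hw' h').2
    · by_cases h' : hm v = w'
      · rw [if_neg h, if_pos h'] at he
        exact absurd (he.symm ▸ (hS.hadj v (hne v w' hw' h')).2.1) (hcl v w hw h).2
      · rw [if_neg h, if_neg h'] at he
        exact hP.inj v (Finset.mem_coe.mpr (mem_nb.mpr ⟨hw, h⟩))
          (Finset.mem_coe.mpr (mem_nb.mpr ⟨hw', h'⟩)) he
  · intro v _
    simp

end Pool.Agent.Work.MP_db9399_nc.helper51
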