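import Pool.Agent.Work.MP_db9399_nc.Base

/-!
# MP_db9399, THEOREM NC: block LOC (helper51)
-/

set_option autoImplicit false

namespace Pool.Agent.Work.MP_db9399_nc.helper51

open Finset Classical
open Pool.Agent.Work.MP_db9399_all (nb)
open Pool.Agent.Work.MP_db9399_nc

universe u

/-- the colours used twice -/
noncomputable def dup {V : Type u} [Fintype V] (d : ℕ) (c : V → ℕ) : Finset ℕ :=
  (range (d + 2)).filter (fun b => (univ.filter (fun v => c v = b)).card = 2)

/-- the context gives a spot for every larger palette which avoids `a` -/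
theorem loc_spot {V : Type u} [Fintype V] {G : SimpleGraph V} {d x : ℕ} {c : V → ℕ}
    {F : V → Finset ℕ} {E : Finset ℕ} {hm : V → V} {γ a : ℕ} (h : Loc G d x c F E hm γ a)
    (E' : Finset ℕ) (h1 : insert γ E ⊆ E') (h2 : dup d c ⊆ E') (h3 : ∀ b ∈ E', b < d + 2)
    (h4 : a ∉ E') : Spot G d c F E' hm γ where
  deg := h.deg
  clt := h.clt
  cF := h.cF
  cadj := h.cadj
  crep := by
    intro v w hvw hcv
    apply h2
    unfold dup
    rw [Finset.mem_filter, Finset.mem_range]
    refine ⟨h.clt v, le_antisymm (h.ctwo _) ?_⟩
    have : ({v, w} : Finset V) ⊆ univ.filter (fun z => c z = c v) := by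
      intro z hz
      rw [Finset.mem_insert, Finset.mem_singleton] at hz
      rw [Finset.mem_filter]
      rcases hz with rfl | rfl
      · exact ⟨Finset.mem_univ _, rfl⟩
      · exact ⟨Finset.mem_univ _, hcv.symm⟩
    have h5 := Finset.card_le_card this
    rwa [Finset.card_pair hvw] at h5
  ctwo := h.ctwo
  Elt := h3
  FE := fun v => (h.FE v).trans h1
  fr := ⟨a, h.alt, h4, h.ac⟩
  hinv := h.hinv
  hadj := fun v hv => ⟨(h.hadj v hv).1, h1 (Finset.mem_insert_self _ _), (h.hadj v hv).2⟩
  hcard := h.hcard

theorem stmt_LOC (hA : Stmt_SPA.{u}) (hB : Stmt_SPB.{u}) (h0 : Stmt_SP0.{u}) :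
    Stmt_LOC.{u} := by
  intro V _ G d x c F E hm γ a h
  have hx1 := h.x1
  have hxd := h.xd
  have hEc := h.Ecard
  set E' : Finset ℕ := insert γ E ∪ dup d c with hE'
  have hdup : (dup d c).card ≤ x + 2 := h.rep
  have hsub1 : insert γ E ⊆ E' := Finset.subset_union_left
  have hsub2 : dup d c ⊆ E' := Finset.subset_union_right
  have hEE' : E ⊆ E' := (Finset.subset_insert _ _).trans hsub1
  have hlt : ∀ b ∈ E', b < d + 2 := by
    intro b hb
    rw [hE', Finset.mem_union, Finset.mem_insert] at hb
    rcases hb with (hb | hb) | hb
    · rw [hb]; exact h.γlt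
    · exact h.Elt b hb
    · unfold dup at hb
      rw [Finset.mem_filter, Finset.mem_range] at hb
      exact hb.1
  have ha : a ∉ E' := by
    intro hb
    rw [hE', Finset.mem_union, Finset.mem_insert] at hb
    rcases hb with (hb | hb) | hb
    · exact h.aγ hb
    · exact h.aE hb
    · unfold dup at hb
      rw [Finset.mem_filter] at hb
      have h5 : univ.filter (fun v => c v = a) = ∅ := by
        rw [Finset.filter_eq_empty_iff]
        intro v _
        exact h.ac v
      rw [h5] at hb
      simp at hb
  have hc1 : E'.card ≤ 461 * x + 18 := by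
    have h5 := Finset.card_union_le (insert γ E) (dup d c)
    have h6 := Finset.card_insert_le γ E
    rw [← hE'] at h5
    omega
  have hc2 : 460 * x + 15 ≤ E'.card := by
    rw [← hEc]; exact Finset.card_le_card hEE'
  by_cases hsmall : Fintype.card V + E'.card ≤ d + 1
  · exact h0 G d c F E' hm γ (loc_spot h E' hsub1 hsub2 hlt ha) hsmall
  have hV : 99000 * x ≤ Fintype.card V := by omega
  have hdV : d ≤ 2 * Fintype.card V := by omega
  have hdirty : ∀ b, 8 * (dirty c F b).card ≤ Fintype.card V + 32 := by
    intro b
    have h5 := h.load hdV b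
    have h6 := h.ctwo b
    have h7 : dirty c F b ⊆ univ.filter (fun v => c v = b) ∪ univ.filter (fun v => b ∈ F v) := by
      intro v hv
      rw [mem_dirty] at hv
      rw [Finset.mem_union, Finset.mem_filter, Finset.mem_filter]
      rcases hv with hv | hv
      · exact Or.inl ⟨Finset.mem_univ _, hv⟩
      · exact Or.inr ⟨Finset.mem_univ _, hv⟩
    have h8 := Finset.card_le_card h7
    have h9 := Finset.card_union_le (univ.filter (fun v => c v = b))
      (univ.filter (fun v => b ∈ F v))
    omega
  rcases h.par hdV with hp | hp
  · -- few vertices with outer edges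
    have key : ∃ E'' : Finset ℕ, E' ⊆ E'' ∧ (∀ b ∈ E'', b < d + 2) ∧ a ∉ E'' ∧
        Odd E''.card ∧ E''.card ≤ 461 * x + 19 := by
      by_cases hodd : Odd E'.card
      · exact ⟨E', subset_rfl, hlt, ha, hodd, by omega⟩
      · have h5 : ∃ a1 ∈ range (d + 2), a1 ∉ insert a E' := by
          by_contra hcon
          push Not at hcon
          have h6 : range (d + 2) ⊆ insert a E' := hcon
          have h7 := Finset.card_le_card h6
          have h8 := Finset.card_insert_le a E'
          rw [Finset.card_range] at h7
          omega
        obtain ⟨a1, ha1, ha1'⟩ := h5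
        rw [Finset.mem_insert] at ha1'
        push Not at ha1'
        refine ⟨insert a1 E', Finset.subset_insert _ _, ?_, ?_, ?_, ?_⟩
        · intro b hb
          rw [Finset.mem_insert] at hb
          rcases hb with rfl | hb
          · exact Finset.mem_range.mp ha1
          · exact hlt b hb
        · rw [Finset.mem_insert]
          rintro (hb | hb)
          · exact ha1'.1 hb.symm
          · exact ha hb
        · rw [Finset.card_insert_of_notMem ha1'.2]
          rw [Nat.not_odd_iff_even] at hodd
          exact hodd.add_one
        · rw [Finset.card_insert_of_notMem ha1'.2]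
          omega
    obtain ⟨E'', hs, hlt'', ha'', hodd, hc''⟩ := key
    refine hA G d x c F E'' hm γ (loc_spot h E'' (hsub1.trans hs) (hsub2.trans hs) hlt'' ha'')
      h.inn ?_ hodd ?_
    · intro b _
      have := hdirty b
      omega
    · omega
  · -- few odd rounds
    refine hB G d x (x + 1) c F E' hm γ (loc_spot h E' hsub1 hsub2 hlt ha) h.inn ?_ ?_ ?_
    · intro b _
      have := hdirty b
      omega
    · intro v
      have := h.Fx v
      omega
    · have h5 : E'.filter (fun b => Odd (univ \ dirty c F b).card) ⊆
          E.filter (fun b => Odd (univ \ dirty c F b).card) ∪ insert γ (dup d c) := by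
        intro b hb
        rw [Finset.mem_filter] at hb
        rw [Finset.mem_union, Finset.mem_filter, Finset.mem_insert]
        have h6 := hb.1
        rw [hE', Finset.mem_union, Finset.mem_insert] at h6
        rcases h6 with (h6 | h6) | h6
        · exact Or.inr (Or.inl h6)
        · exact Or.inl ⟨h6, hb.2⟩
        · exact Or.inr (Or.inr h6)
      have h7 := Finset.card_le_card h5
      have h8 := Finset.card_union_le (E.filter (fun b => Odd (univ \ dirty c F b).card))
        (insert γ (dup d c))
      have h9 := Finset.card_insert_le γ (dup d c)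
      omega

end Pool.Agent.Work.MP_db9399_nc.helper51
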